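import Pool.Agent.Lib_helper78.TT.Search

/-!
# The batches of questions asked in the search (MP_675993_lc, deterministic)

`asked g x N` lists all batches of questions for which `search g O d k x N` uses `g`.  If `g` and
`g'` agree for them, then the searches agree.
-/

set_option autoImplicit false
set_option linter.unusedSectionVars false

namespace Pool.Agent.TT

open Pool.Agent.CK Pool.Agent.CKP Pool.Agent.PSL Pool.Agent.PCL

theorem mem_rangeU1 {u v : List Unit} : v ∈ rangeU u ↔ v.length < u.length := by
  have h1 := unary_eq u
  have h2 := unary_eq v
  rw [← h1, ← h2, rangeU_replicate, List.mem_map]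
  simp only [List.mem_range, List.length_replicate]
  constructor
  · rintro ⟨i, hi, h⟩
    have := congrArg List.length h
    simp only [List.length_replicate] at this
    omega
  · intro h
    exact ⟨_, h, rfl⟩

theorem rangeU_len (u : List Unit) : (rangeU u).length = u.length := by
  have h1 := unary_eq u
  rw [← h1, rangeU_replicate, List.length_map, List.length_range, List.length_replicate]

/-- all batches of questions -/
def asked (g : List (List Bool) → List (List Bool)) (x : List Bool) (N : List Unit) :
    List (List (List Bool)) :=
  (rangeU (List.replicate (XX N.length) ())).flatMap fun m =>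
    (rangeU (() :: (List.replicate ((m.length + 1) ^ 6) ()))).flatMap fun i =>
      ((seeds (() :: m)).map fun s => lquest x N m ((full g x N m).take i.length) s) ++
      (fterms (List.replicate (YY N.length) ())).map fun t =>
        fquest x N ((full g x N m).take i.length) t

section

variable {g g' : List (List Bool) → List (List Bool)} {x : List Bool} {N : List Unit}

/-- the states -/
def fulL (g : List (List Bool) → List (List Bool)) (x : List Bool) (N m : List Unit)
    (l : List Sd) : List Cl := l.foldl (fun st s => st ++ [lcl g x N m st s]) []

theorem fulL_snoc (m : List Unit) (l : List Sd) (s : Sd) :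
    fulL g x N m (l ++ [s]) = fulL g x N m l ++ [lcl g x N m (fulL g x N m l) s] := by
  unfold fulL
  rw [List.foldl_append, List.foldl_cons, List.foldl_nil]

theorem fulL_length (m : List Unit) (l : List Sd) : (fulL g x N m l).length = l.length := by
  induction l using List.reverseRecOn with
  | nil => rfl
  | append_singleton l s ih =>
    rw [fulL_snoc, List.length_append, List.length_append, ih]
    rfl

theorem fulL_prefix (m : List Unit) (l l' : List Sd) :
    fulL g x N m l <+: fulL g x N m (l ++ l') := by
  induction l' using List.reverseRecOn with
  | nil => rw [List.append_nil]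
  | append_singleton l' s ih =>
    rw [← List.append_assoc, fulL_snoc]
    exact ih.trans (List.prefix_append _ _)

theorem full_fulL (m : List Unit) : full g x N m = fulL g x N m (seeds (() :: m)) := rfl

theorem fulL_take (m : List Unit) (l l' : List Sd) (h : seeds (() :: m) = l ++ l') :
    fulL g x N m l = (full g x N m).take l.length := by
  have h1 := fulL_prefix (g := g) (x := x) (N := N) m l l'
  rw [← h, ← full_fulL] at h1
  rw [List.prefix_iff_eq_take] at h1
  rw [fulL_length] at h1
  exact h1

theorem triples_length (p : List Unit) : (triples p).length = p.length ^ 3 := by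
  unfold triples
  simp only [List.length_flatMap, List.length_map, rangeU_len]
  simp only [List.map_const', List.sum_replicate, rangeU_len, smul_eq_mul]
  ring

theorem seeds_length (p : List Unit) : (seeds p).length = p.length ^ 6 := by
  unfold seeds
  simp only [List.length_flatMap, List.length_map, triples_length]
  simp only [List.map_const', List.sum_replicate, triples_length, smul_eq_mul]
  ring

theorem mem_range_le {n i : ℕ} (h : i ≤ n) :
    List.replicate i () ∈ rangeU (() :: List.replicate n ()) := by
  rw [mem_rangeU1, List.length_replicate, List.length_cons, List.length_replicate]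
  omega

/-- the clauses agree -/
theorem full_congr {m : List Unit} (hm : m.length < XX N.length)
    (h : ∀ qs ∈ asked g x N, g qs = g' qs) : full g x N m = full g' x N m := by
  have key : ∀ l l' : List Sd, seeds (() :: m) = l ++ l' →
      fulL g x N m l = fulL g' x N m l := by
    intro l
    induction l using List.reverseRecOn with
    | nil => intro _ _; rfl
    | append_singleton l s ih =>
      intro l' hl
      have hl' : seeds (() :: m) = l ++ (s :: l') := by
        rw [hl, List.append_assoc]
        rfl
      have h1 := ih _ hl'
      rw [fulL_snoc, fulL_snoc, ← h1]
      have h2 : g (lquest x N m (fulL g x N m l) s) = g' (lquest x N m (fulL g x N m l) s) := by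
        refine h _ ?_
        unfold asked
        refine List.mem_flatMap.mpr ⟨m, ?_, List.mem_flatMap.mpr
          ⟨List.replicate l.length (), ?_, List.mem_append_left _ (List.mem_map.mpr ⟨s, ?_, ?_⟩)⟩⟩
        · rw [mem_rangeU1, List.length_replicate]
          exact hm
        · refine mem_range_le ?_
          have h3 := seeds_length (() :: m)
          rw [hl', List.length_append, List.length_cons, List.length_cons] at h3
          omega
        · rw [hl']
          exact List.mem_append_right _ List.mem_cons_self
        · rw [List.length_replicate, ← fulL_take m l _ hl']
      have h4 : lcand g x N m (fulL g x N m l) s = lcand g' x N m (fulL g x N m l) s := by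
        unfold lcand
        rw [h2]
      unfold lcl
      rw [h4]
  rw [full_fulL, full_fulL]
  exact key _ [] (List.append_nil _).symm

/-- **the searches agree** -/
theorem search_congr (O : Lang) (d : Cmd) (k : ℕ) (h : ∀ qs ∈ asked g x N, g qs = g' qs) :
    search g O d k x N = search g' O d k x N := by
  unfold search
  refine List.flatMap_congr fun m hm => ?_
  have hm' : m.length < XX N.length := by
    rw [mem_rangeU1, List.length_replicate] at hm
    exact hm
  rw [← full_congr hm' h]
  refine List.flatMap_congr fun i hi => List.flatMap_congr fun t ht => ?_
  unfold ffind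
  rw [h (fquest x N ((full g x N m).take i.length) t) ?_]
  unfold asked
  exact List.mem_flatMap.mpr ⟨m, hm, List.mem_flatMap.mpr
    ⟨i, hi, List.mem_append_right _ (List.mem_map.mpr ⟨t, ht, rfl⟩)⟩⟩

end

/-- **The search finds a witness, or a batch was asked for which the candidates are wrong.** -/
theorem search_or_asked [OfD Qu] {O : Lang} {d : Cmd} {k e : ℕ}
    (hcomp : ∀ (g : List (List Bool) → List (List Bool)) (x : List Bool) (N : List Unit),
      x.length ≤ N.length → (x.length + 2) ^ k < N.length →
      (∀ qs : List (List Bool), sz qs ≤ (N.length + 2) ^ e →
        qs.map (QL O d k) ∈ g qs ∧ (g qs).length < 2 ^ N.length) →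
      (∃ y, wit O d k x y = true) → search g O d k x N ≠ [])
    {g : List (List Bool) → List (List Bool)} {x : List Bool} {N : List Unit}
    (hx : x.length ≤ N.length) (hN : (x.length + 2) ^ k < N.length)
    (hg : ∀ qs : List (List Bool), sz qs ≤ (N.length + 2) ^ e → (g qs).length < 2 ^ N.length)
    (hw : ∃ y, wit O d k x y = true) :
    search g O d k x N ≠ [] ∨ ∃ qs ∈ asked g x N, qs.map (QL O d k) ∉ g qs := by
  classical
  by_cases h : ∃ qs ∈ asked g x N, qs.map (QL O d k) ∉ g qs
  · exact Or.inr h
  · left
    push Not at h
    have h1 := hcomp (fun qs => if qs.map (QL O d k) ∈ g qs then g qs else [qs.map (QL O d k)])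
      x N hx hN (fun qs hqs => ?_) hw
    · rw [search_congr (g := g) (g' := fun qs => if qs.map (QL O d k) ∈ g qs then g qs
        else [qs.map (QL O d k)]) O d k fun qs hqs => by rw [if_pos (h qs hqs)]]
      exact h1
    · split_ifs with h2
      · exact ⟨h2, hg qs hqs⟩
      · refine ⟨List.mem_singleton.mpr rfl, ?_⟩
        rw [List.length_singleton]
        exact Nat.one_lt_two_pow (by omega)

end Pool.Agent.TT
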