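import Pool.Agent.Lib_helper57.YF.F

/-!
# Few rounds of queries: candidates for a batch of questions (MP_675993_lc, deterministic)

For a batch `qs` of questions and all lists of numbers of true comparisons, `gD` gives the answers
for the questions, and `exD` gives the entries of the lists that occur in the queries.  If no
query with a long correct list occurs, then the true answers are in `gD`, otherwise the least
witness is in `exD`.
-/

set_option autoImplicit false
set_option linter.unusedSectionVars false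

namespace Pool.Agent.CKP

open Pool.Agent.CK

variable {O : Lang}
variable {α β γ δ : Type} [ToD α] [ToD β] [ToD γ] [ToD δ]

theorem rangeU_lenY (u : List Unit) : (rangeU u).length = u.length := by
  obtain ⟨n, rfl⟩ : ∃ n, u = List.replicate n () := ⟨_, units_eq u⟩
  rw [rangeU_replicate, List.length_map, List.length_range, List.length_replicate]

/-- candidate vectors of answers -/
def gD (O : Lang) (W : ℕ → ℕ → Bool) (ℓ : ℕ → ℕ) (r k : ℕ)
    (Q : List Bool → List Bool → List (List Bool)) (V : List Bool → List Bool → Bool)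
    (G : List Bool → List Bool) (U τ s : List Unit) (qs : List (List Bool)) :
    List (List Bool) :=
  (rangeU U).map fun v => qs.map fun q =>
    V (G q) (lkS (simA O W ℓ r k Q U (qs.map G) (jsU τ s v.length)) (G q))

/-- candidates found in the queries -/
def exD (O : Lang) (W : ℕ → ℕ → Bool) (ℓ : ℕ → ℕ) (r k : ℕ)
    (Q : List Bool → List Bool → List (List Bool))
    (G : List Bool → List Bool) (U τ s M : List Unit) (qs : List (List Bool)) : List ℕ :=
  (rangeU U).flatMap fun v => (rangeU (() :: τ)).flatMap fun t =>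
    canE Q M (simA O W ℓ r k Q U (qs.map G) (jsU t s v.length))

theorem gD_length {W : ℕ → ℕ → Bool} {ℓ : ℕ → ℕ} {r k : ℕ}
    {Q : List Bool → List Bool → List (List Bool)} {V : List Bool → List Bool → Bool}
    {G : List Bool → List Bool} {U τ s : List Unit} {qs : List (List Bool)} :
    (gD O W ℓ r k Q V G U τ s qs).length = U.length := by
  unfold gD
  rw [List.length_map, rangeU_lenY]

theorem PTime.gD {W : ℕ → ℕ → Bool} {ℓ : ℕ → ℕ} (hver : Ver O W ℓ) (r k : ℕ) {k1 : ℕ}
    {Q : List Bool → List Bool → List (List Bool)} {V : List Bool → List Bool → Bool}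
    {G : List Bool → List Bool}
    (hQ : PTime O (fun p : List Bool × List Bool => Q p.1 p.2))
    (hQl : ∀ y a, (Q y a).length ≤ y.length + (y.length + 2) ^ k1)
    (hV : PTime O (fun p : List Bool × List Bool => V p.1 p.2)) (hG : PTime O G)
    {U τ s : γ → List Unit} {qs : γ → List (List Bool)} (hU : PTime O U)
    (hτ : PTime O τ) (hs : PTime O s) (hqs : PTime O qs) :
    PTime O (fun a => CKP.gD O W ℓ r k Q V G (U a) (τ a) (s a) (qs a)) := by
  unfold CKP.gD
  refine PTime.map (f := fun a v => (qs a).map fun q => V (G q) (CKP.lkS (CKP.simA O W ℓ r k Q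
    (U a) ((qs a).map G) (CKP.jsU (τ a) (s a) v.length)) (G q))) (PTime.rangeU hU) ?_
  refine PTime.map (f := fun (p : γ × List Unit) q => V (G q) (CKP.lkS (CKP.simA O W ℓ r k Q
    (U p.1) ((qs p.1).map G) (CKP.jsU (τ p.1) (s p.1) p.2.length)) (G q)))
    (hqs.comp PTime.id.fst) ?_
  have h1 : PTime O (fun p : (γ × List Unit) × List Bool => G p.2) := hG.comp PTime.id.snd
  have h2 : PTime O (fun p : (γ × List Unit) × List Bool => (qs p.1.1).map G) :=
    PTime.map (f := fun _ q => G q) (hqs.comp PTime.id.fst.fst) (hG.comp PTime.id.snd)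
  have h3 : PTime O (fun p : (γ × List Unit) × List Bool => CKP.jsU (τ p.1.1) (s p.1.1)
      p.1.2.length) :=
    PTime.jsU (hτ.comp PTime.id.fst.fst) (hs.comp PTime.id.fst.fst) PTime.id.fst.snd.length
  exact PTime.comp (g := fun p : List Bool × List Bool => V p.1 p.2) hV
    (h1.pair (PTime.lkS (PTime.simA hver r k hQ hQl (hU.comp PTime.id.fst.fst) h2 h3) h1))

theorem PTime.exD {W : ℕ → ℕ → Bool} {ℓ : ℕ → ℕ} (hver : Ver O W ℓ) (r k : ℕ) {k1 : ℕ}
    {Q : List Bool → List Bool → List (List Bool)} {G : List Bool → List Bool}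
    (hQ : PTime O (fun p : List Bool × List Bool => Q p.1 p.2))
    (hQl : ∀ y a, (Q y a).length ≤ y.length + (y.length + 2) ^ k1) (hG : PTime O G)
    {U τ s M : γ → List Unit} {qs : γ → List (List Bool)} (hU : PTime O U)
    (hτ : PTime O τ) (hs : PTime O s) (hM : PTime O M) (hqs : PTime O qs) :
    PTime O (fun a => CKP.exD O W ℓ r k Q G (U a) (τ a) (s a) (M a) (qs a)) := by
  unfold CKP.exD
  refine PTime.flatMap (f := fun a v => (CKP.rangeU (() :: τ a)).flatMap fun t =>
    CKP.canE Q (M a) (CKP.simA O W ℓ r k Q (U a) ((qs a).map G) (CKP.jsU t (s a) v.length)))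
    (PTime.rangeU hU) ?_
  refine PTime.flatMap (f := fun (p : γ × List Unit) t =>
    CKP.canE Q (M p.1) (CKP.simA O W ℓ r k Q (U p.1) ((qs p.1).map G)
      (CKP.jsU t (s p.1) p.2.length)))
    (PTime.rangeU (PTime.cons (PTime.const ()) (hτ.comp PTime.id.fst))) ?_
  have h2 : PTime O (fun p : (γ × List Unit) × List Unit => (qs p.1.1).map G) :=
    PTime.map (f := fun _ q => G q) (hqs.comp PTime.id.fst.fst) (hG.comp PTime.id.snd)
  have h3 : PTime O (fun p : (γ × List Unit) × List Unit => CKP.jsU p.2 (s p.1.1)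
      p.1.2.length) :=
    PTime.jsU PTime.id.snd (hs.comp PTime.id.fst.fst) PTime.id.fst.snd.length
  exact PTime.canE hQ (hM.comp PTime.id.fst.fst)
    (PTime.simA hver r k hQ hQl (hU.comp PTime.id.fst.fst) h2 h3)

section

variable {W : ℕ → ℕ → Bool} {ℓ : ℕ → ℕ} {r k : ℕ} {Q : List Bool → List Bool → List (List Bool)}
    {V : List Bool → List Bool → Bool} {G : List Bool → List Bool}

/-- **The true answers, or the least witness.** -/
theorem gD_or_exD (hcut : Cut W ℓ) (htot : ∀ m, ∃ v, W m v = true) (hr : 1 ≤ r) {A B : Lang}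
    {rr : List Bool → ℕ} {At : List Bool → ℕ → List Bool}
    (hF : FRD A (CL O W r k) Q V rr At) (hG : ∀ w, B w = A (G w)) {U τ s M : List Unit}
    {qs : List (List Bool)} (hU : 2 ^ rt r M.length ≤ U.length)
    (hτ : ∀ q ∈ qs, rr (G q) ≤ τ.length)
    (hs : ∀ i < τ.length, jA W Q ((qs.map G).map fun y => (y, At y i)) < 2 ^ s.length)
    (hUτ : 2 ^ (τ.length * s.length) ≤ U.length) :
    qs.map B ∈ gD O W ℓ r k Q V G U τ s qs ∨
      ∃ w ∈ exD O W ℓ r k Q G U τ s M qs, W M.length w = true ∧
        ∀ v, W M.length v = true → w ≤ v := by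
  obtain ⟨Z, hZ⟩ : ∃ Z, Z = qs.map G := ⟨_, rfl⟩
  obtain ⟨v0, hv0, hcode⟩ := exists_code s.length τ.length
    (fun i => jA W Q (Z.map fun y => (y, At y i))) (by rw [hZ]; exact hs)
  have hjs : ∀ i ≤ τ.length, jsU (List.replicate i ()) s v0 =
      (List.range i).map fun i => jA W Q (Z.map fun y => (y, At y i)) := by
    intro i hi
    have h1 := jsU_eq (s := s.length) (n := i) (v := v0)
      (j := fun i => jA W Q (Z.map fun y => (y, At y i))) fun j hj => hcode j (by omega)
    rw [yunits_eq s] at h1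
    exact h1
  have hmv : List.replicate v0 () ∈ rangeU U :=
    mem_rangeU.mpr (by rw [List.length_replicate]; omega)
  by_cases hj : ∃ i, i < τ.length ∧ ∃ q ∈ curA Q (Z.map fun y => (y, At y i)),
      jack W r k M.length q
  · right
    classical
    obtain ⟨hi, q, hq, hqj⟩ := Nat.find_spec hj
    set i := Nat.find hj with hidef
    have hno : ∀ j < i, ∀ q ∈ curA Q (Z.map fun y => (y, At y j)), ¬ jack W r k M.length q := by
      intro j hj' q hq' hqj'
      exact Nat.find_min hj hj' ⟨by omega, q, hq', hqj'⟩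
    have h1 := simA_true hcut htot hr hF hU (Z := Z) i hno
    obtain ⟨-, -, hL, hlt⟩ := hqj
    have hsp := hL M.length hlt
    have h2 : (ent (wss q) M.length).1 = true := hsp.1.mpr (htot _)
    have h3 := hsp.2 h2
    refine ⟨(ent (wss q) M.length).2, ?_, h3.1, fun v hv => ?_⟩
    · unfold exD
      refine List.mem_flatMap.mpr ⟨_, hmv, List.mem_flatMap.mpr ⟨List.replicate i (), ?_, ?_⟩⟩
      · exact mem_rangeU.mpr (by rw [List.length_replicate, List.length_cons]; omega)
      · rw [List.length_replicate, ← hZ, hjs i hi.le, h1]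
        exact List.mem_map.mpr ⟨q, hq, rfl⟩
    · by_contra h4
      exact h3.2 v (not_le.mp h4) hv
  · left
    push Not at hj
    have h1 := simA_true hcut htot hr hF hU (Z := Z) τ.length hj
    have h2 : jsU τ s v0 = (List.range τ.length).map fun i =>
        jA W Q (Z.map fun y => (y, At y i)) := by
      have := hjs τ.length le_rfl
      rw [yunits_eq τ] at this
      exact this
    unfold gD
    refine List.mem_map.mpr ⟨_, hmv, ?_⟩
    rw [List.length_replicate, ← hZ, h2, h1]
    refine List.map_congr_left fun q hq => ?_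
    have hmem : G q ∈ Z := by
      rw [hZ]
      exact List.mem_map.mpr ⟨q, hq, rfl⟩
    rw [lkS_eq hmem, hF.hv _ _ (hτ _ hq), hG]

end

/-! ### bounds -/

section

variable {W : ℕ → ℕ → Bool} {ℓ : ℕ → ℕ} {k1 : ℕ} {Q : List Bool → List Bool → List (List Bool)}
    {V : List Bool → List Bool → Bool} {G : List Bool → List Bool}

/-- bounds for the instances and for the numbers of true comparisons -/
theorem exists_boundsD {rr : List Bool → ℕ} {At : List Bool → ℕ → List Bool} {A C : Lang}
    (hF : FRD A C Q V rr At) (hG : PTime O G)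
    (hQ : PTime O (fun p : List Bool × List Bool => Q p.1 p.2))
    (hQl : ∀ y a, (Q y a).length ≤ y.length + (y.length + 2) ^ k1) (e : ℕ) :
    ∃ e1 : ℕ, ∀ k2 : ℕ, ∃ e2 : ℕ, ∀ (N : ℕ) (qs : List (List Bool)), sz qs ≤ (N + 2) ^ e →
      (∀ q ∈ qs, (G q).length ≤ (N + 2) ^ e1) ∧
      ∀ i ≤ (N + 2) ^ k2, jA W Q ((qs.map G).map fun y => (y, At y i)) ≤ (N + 2) ^ e2 := by
  obtain ⟨PF, hPF⟩ := (PTime.map (O := O) (γ := List (List Bool)) (l := fun a => a)
    (f := fun _ q => G q) PTime.id (hG.comp PTime.id.snd)).size_le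
  obtain ⟨PA, hPA⟩ := (PTime.thsA (O := O) (γ := StA) hQ (σ := fun p => p) PTime.id).size_le
  obtain ⟨eF, heF⟩ := poly_pow PF e
  refine ⟨eF, fun k2 => ?_⟩
  obtain ⟨eA, heA⟩ := poly_pow (PA.comp (Polynomial.X + Polynomial.X *
    (4 * (Polynomial.X * (Polynomial.X + (Polynomial.X + 2) ^ k1)) + 2))) (eF + k2)
  refine ⟨eA, fun N qs hqs => ?_⟩
  obtain ⟨Z, hZ⟩ : ∃ Z, Z = qs.map G := ⟨_, rfl⟩
  rw [← hZ]
  have hszZ : sz Z ≤ (N + 2) ^ eF := by
    rw [hZ]
    exact (hPF qs).trans ((poly_mono PF hqs).trans (heF N))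
  have hy : ∀ y ∈ Z, y.length ≤ sz Z := fun y hy => le_of_mem_list hy
  refine ⟨fun q hq => (hy (G q) (by rw [hZ]; exact List.mem_map.mpr ⟨q, hq, rfl⟩)).trans hszZ,
    fun i hi => ?_⟩
  have hszσ : sz (Z.map fun y => (y, At y i)) ≤
      sz Z + sz Z * (4 * (i * (sz Z + (sz Z + 2) ^ k1)) + 2) := by
    have h1 := sz_state (Z.map fun y => (y, At y i)) (i * (sz Z + (sz Z + 2) ^ k1)) (by
      intro p hp
      obtain ⟨y, hy', rfl⟩ := List.mem_map.mp hp
      refine (At_len hF hQl y i).trans (Nat.mul_le_mul_left i ?_)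
      exact Nat.add_le_add (hy y hy') (Nat.pow_le_pow_left (by have := hy y hy'; omega) _))
    have h2 : (Z.map fun y => (y, At y i)).map Prod.fst = Z := by
      rw [List.map_map]
      exact List.map_id _
    rw [h2, List.length_map] at h1
    exact h1.trans (Nat.add_le_add_left (Nat.mul_le_mul_right _ (length_le_sz Z)) _)
  have h1 : jA W Q (Z.map fun y => (y, At y i)) ≤ sz (thsA Q (Z.map fun y => (y, At y i))) :=
    (cntT_le _ _).trans (length_le_sz _)
  refine h1.trans ((hPA _).trans (le_trans ?_ (heA N)))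
  rw [Polynomial.eval_comp]
  refine poly_mono PA (hszσ.trans ?_)
  have h2 : sz Z ≤ (N + 2) ^ (eF + k2) :=
    hszZ.trans (Nat.pow_le_pow_right (by omega) (by omega))
  have h3 : i ≤ (N + 2) ^ (eF + k2) :=
    hi.trans (Nat.pow_le_pow_right (by omega) (by omega))
  simp only [Polynomial.eval_add, Polynomial.eval_mul, Polynomial.eval_ofNat,
    Polynomial.eval_X, Polynomial.eval_pow]
  gcongr

end

end Pool.Agent.CKP
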