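import Pool.Agent.Lib_helper27.DET.A
import Pool.Agent.Lib_helper78.TT.Time

/-!
# The batches of questions asked in the search: sizes and time (MP_675993_lc)
-/

set_option autoImplicit false
set_option linter.unusedSectionVars false

namespace Pool.Agent.TT

open Pool.Agent.CK Pool.Agent.CKP Pool.Agent.PSL Pool.Agent.PCL

variable {O P : Lang} {γ α β : Type} [ToD γ] [ToD α] [ToD β]

theorem mem_asked {g : List (List Bool) → List (List Bool)} {x : List Bool} {N : List Unit}
    {qs : List (List Bool)} (h : qs ∈ asked g x N) : ∃ (m : List Unit) (i : ℕ),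
      m.length < XX N.length ∧
      ((∃ s ∈ seeds (() :: m), qs = lquest x N m ((full g x N m).take i) s) ∨
        ∃ t ∈ fterms (List.replicate (YY N.length) ()),
          qs = fquest x N ((full g x N m).take i) t) := by
  unfold asked at h
  obtain ⟨m, hm, h⟩ := List.mem_flatMap.mp h
  obtain ⟨i, -, h⟩ := List.mem_flatMap.mp h
  rw [mem_rangeU1, List.length_replicate] at hm
  refine ⟨m, i.length, hm, ?_⟩
  rcases List.mem_append.mp h with h | h
  · obtain ⟨s, hs, rfl⟩ := List.mem_map.mp h
    exact Or.inl ⟨s, hs, rfl⟩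
  · obtain ⟨t, ht, rfl⟩ := List.mem_map.mp h
    exact Or.inr ⟨t, ht, rfl⟩

/-- the size of the batches -/
theorem asked_size : ∃ e : ℕ, ∀ (g : List (List Bool) → List (List Bool)) (x : List Bool)
    (N : List Unit), x.length ≤ N.length → ∀ qs ∈ asked g x N, sz qs ≤ (N.length + 2) ^ e := by
  obtain ⟨e, he⟩ := exists_size
  refine ⟨e, fun g x N hx qs hqs => ?_⟩
  obtain ⟨m, i, hm, h | h⟩ := mem_asked hqs
  · obtain ⟨s, hs, rfl⟩ := h
    exact (he x N m g hx hm).1 i s hs
  · obtain ⟨t, ht, rfl⟩ := h
    exact (he x N m g hx hm).2 i t ht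

/-- **The search finds a witness, or a batch was asked for which the candidates are wrong.**
Both for the batches asked and for the number of the candidates, only sizes up to
`(N + 2) ^ e` matter. -/
theorem search_asked [OfD Qu] (d : Cmd) (k : ℕ)
    (hQ : ∀ q : Qu, QL O d k (qcode q) = Qs O d k q) : ∃ e : ℕ,
    ∀ (g : List (List Bool) → List (List Bool)) (x : List Bool) (N : List Unit),
    x.length ≤ N.length → (x.length + 2) ^ k < N.length →
    (∀ qs : List (List Bool), sz qs ≤ (N.length + 2) ^ e → (g qs).length < 2 ^ N.length) →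
    (∃ y, wit O d k x y = true) →
    search g O d k x N ≠ [] ∨ ∃ qs ∈ asked g x N, sz qs ≤ (N.length + 2) ^ e ∧
      qs.map (QL O d k) ∉ g qs := by
  obtain ⟨e1, he1⟩ := search_complete_of (O := O) (d := d) (k := k) hQ
  obtain ⟨e2, he2⟩ := asked_size
  refine ⟨e1 + e2, fun g x N hx hN hg hw => ?_⟩
  have hle1 : (N.length + 2) ^ e1 ≤ (N.length + 2) ^ (e1 + e2) :=
    Nat.pow_le_pow_right (by omega) (by omega)
  have hle2 : (N.length + 2) ^ e2 ≤ (N.length + 2) ^ (e1 + e2) :=
    Nat.pow_le_pow_right (by omega) (by omega)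
  rcases search_or_asked he1 hx hN (fun qs hqs => hg qs (hqs.trans hle1)) hw with h | h
  · exact Or.inl h
  · obtain ⟨qs, hqs, h⟩ := h
    exact Or.inr ⟨qs, hqs, (he2 g x N hx qs hqs).trans hle2, h⟩

/-- the batches in polynomial time -/
theorem ptime_asked {G : γ → List (List Bool) → List (List Bool)}
    (hG : PTime P (fun p : γ × List (List Bool) => G p.1 p.2)) {x : γ → List Bool}
    {N : γ → List Unit} (hx : PTime P x) (hN : PTime P N) :
    PTime P (fun a => asked (G a) (x a) (N a)) := by
  have hfull : PTime P (fun p : (γ × List Unit) × List Unit =>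
      (full (G p.1.1) (x p.1.1) (N p.1.1) p.1.2).take p.2.length) := by
    refine ptime_takeU PTime.id.snd ?_
    exact ptime_full (G := fun p : (γ × List Unit) × List Unit => G p.1.1)
      (hG.comp (PTime.id.fst.fst.fst.pair PTime.id.snd)) (hx.comp PTime.id.fst.fst)
      (hN.comp PTime.id.fst.fst) PTime.id.fst.snd
  have h3 : PTime P (fun p : ((γ × List Unit) × List Unit) × Sd =>
      lquest (x p.1.1.1) (N p.1.1.1) p.1.1.2
        ((full (G p.1.1.1) (x p.1.1.1) (N p.1.1.1) p.1.1.2).take p.1.2.length) p.2) :=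
    ptime_lquest (hx.comp PTime.id.fst.fst.fst) (hN.comp PTime.id.fst.fst.fst)
      PTime.id.fst.fst.snd (hfull.comp PTime.id.fst) PTime.id.snd
  have h3' : PTime P (fun p : ((γ × List Unit) × List Unit) × Tm =>
      fquest (x p.1.1.1) (N p.1.1.1)
        ((full (G p.1.1.1) (x p.1.1.1) (N p.1.1.1) p.1.1.2).take p.1.2.length) p.2) :=
    ptime_fquest (hx.comp PTime.id.fst.fst.fst) (hN.comp PTime.id.fst.fst.fst)
      (hfull.comp PTime.id.fst) PTime.id.snd
  have h4 : PTime P (fun p : (γ × List Unit) × List Unit =>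
      (seeds (() :: p.1.2)).map fun s => lquest (x p.1.1) (N p.1.1) p.1.2
        ((full (G p.1.1) (x p.1.1) (N p.1.1) p.1.2).take p.2.length) s) :=
    PTime.map (ptime_seeds (PTime.cons (PTime.const ()) PTime.id.fst.snd)) h3
  have h4' : PTime P (fun p : (γ × List Unit) × List Unit =>
      (fterms (List.replicate (YY (N p.1.1).length) ())).map fun t => fquest (x p.1.1) (N p.1.1)
        ((full (G p.1.1) (x p.1.1) (N p.1.1) p.1.2).take p.2.length) t) :=
    PTime.map (ptime_ftermsY (hN.comp PTime.id.fst.fst)) h3'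
  have h2 : PTime P (fun p : (γ × List Unit) × List Unit =>
      ((seeds (() :: p.1.2)).map fun s => lquest (x p.1.1) (N p.1.1) p.1.2
        ((full (G p.1.1) (x p.1.1) (N p.1.1) p.1.2).take p.2.length) s) ++
      (fterms (List.replicate (YY (N p.1.1).length) ())).map fun t => fquest (x p.1.1) (N p.1.1)
        ((full (G p.1.1) (x p.1.1) (N p.1.1) p.1.2).take p.2.length) t) :=
    PTime.append h4 h4'
  have h1 : PTime P (fun p : γ × List Unit =>
      (rangeU (() :: (List.replicate ((p.2.length + 1) ^ 6) ()))).flatMap fun i =>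
        ((seeds (() :: p.2)).map fun s => lquest (x p.1) (N p.1) p.2
          ((full (G p.1) (x p.1) (N p.1) p.2).take i.length) s) ++
        (fterms (List.replicate (YY (N p.1).length) ())).map fun t => fquest (x p.1) (N p.1)
          ((full (G p.1) (x p.1) (N p.1) p.2).take i.length) t) :=
    PTime.flatMap (ptime_range6 PTime.id.snd) h2
  exact PTime.flatMap (ptime_rangeX hN) h1

end Pool.Agent.TT
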